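import Pool.Agent.N64.AF.Q
import Mathlib.Tactic.CategoryTheory.Monoidal.Basic

/-!
# V1: smash nilpotence (helper322 for helper64)
-/

set_option autoImplicit false
set_option linter.unusedSectionVars false

open CategoryTheory Limits MonoidalCategory Module Filter Topology
open Pool.Agent.Y112.SR Pool.Agent.Y112.KD
open Pool.Agent.Y116.MT (tr)
open scoped ENNReal

namespace Pool.Agent.N64.AF

universe v u w t x

variable {C : Type u} [Category.{v} C] [Preadditive C] [MonoidalCategory C]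
  [MonoidalPreadditive C] [SymmetricCategory C]

/-- The exterior powers `α ⊗ ⋯ ⊗ α` of a morphism from the unit object. -/
def tpow {Z : C} (α : 𝟙_ C ⟶ Z) : ∀ k : ℕ, 𝟙_ C ⟶ tp Z k
  | 0 => 𝟙 _
  | k + 1 => tpow α k ≫ (ρ_ (tp Z k)).inv ≫ (tp Z k ◁ α)

/-- The morphism `α` is smash nilpotent. -/
def SmashNil {Z : C} (α : 𝟙_ C ⟶ Z) : Prop := ∃ k, tpow α k = 0

namespace V1aux322

lemma tpow_succ {Z : C} (α : 𝟙_ C ⟶ Z) (k : ℕ) :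
    tpow α (k + 1) = tpow α k ≫ (ρ_ (tp Z k)).inv ≫ (tp Z k ◁ α) := rfl

lemma tpow_mono {Z : C} {α : 𝟙_ C ⟶ Z} {k : ℕ} (h : tpow α k = 0) {m : ℕ} (hm : k ≤ m) :
    tpow α m = 0 := by
  induction m, hm using Nat.le_induction with
  | base => exact h
  | succ m hm ih => rw [tpow_succ, ih, zero_comp]

lemma tpow_comp {Y Z : C} (α : 𝟙_ C ⟶ Y) (f : Y ⟶ Z) (k : ℕ) :
    ∃ g : tp Y k ⟶ tp Z k, tpow (α ≫ f) k = tpow α k ≫ g := by
  induction k with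
  | zero => exact ⟨𝟙 _, by simp [tpow]⟩
  | succ k ih =>
    obtain ⟨g, hg⟩ := ih
    refine ⟨(g ▷ Y) ≫ (tp Z k ◁ f), ?_⟩
    rw [tpow_succ, tpow_succ, hg, MonoidalCategory.whiskerLeft_comp]
    simp only [Category.assoc]
    congr 1
    rw [whisker_exchange_assoc, rightUnitor_inv_naturality_assoc]

/-- two factors -/
def AA {Z : C} (α β : 𝟙_ C ⟶ Z) (i j : ℕ) : 𝟙_ C ⟶ tp Z i ⊗ tp Z j :=
  (λ_ (𝟙_ C)).inv ≫ (tpow α i ⊗ₘ tpow β j)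

lemma AA_zero {Z : C} (α β : 𝟙_ C ⟶ Z) {i j a b : ℕ} (ha : tpow α a = 0) (hb : tpow β b = 0)
    (h : a + b ≤ i + j) : AA α β i j = 0 := by
  unfold AA
  rcases le_total a i with h1 | h1
  · rw [tpow_mono ha h1, MonoidalPreadditive.zero_tensor, comp_zero]
  · rw [tpow_mono hb (show b ≤ j by omega), MonoidalPreadditive.tensor_zero, comp_zero]

/-- the general form of the next lemma -/
lemma gen_right {P Q Z : C} (x : 𝟙_ C ⟶ P) (y : 𝟙_ C ⟶ Q) (β : 𝟙_ C ⟶ Z) :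
    ((λ_ (𝟙_ C)).inv ≫ (x ⊗ₘ y)) ≫ (ρ_ (P ⊗ Q)).inv ≫ ((P ⊗ Q) ◁ β) =
      ((λ_ (𝟙_ C)).inv ≫ (x ⊗ₘ (y ≫ (ρ_ Q).inv ≫ (Q ◁ β)))) ≫ (α_ P Q Z).inv := by
  monoidal

lemma gen_left {P Q Z : C} (x : 𝟙_ C ⟶ P) (y : 𝟙_ C ⟶ Q) (α : 𝟙_ C ⟶ Z) :
    ((λ_ (𝟙_ C)).inv ≫ (x ⊗ₘ y)) ≫ (ρ_ (P ⊗ Q)).inv ≫ ((P ⊗ Q) ◁ α) =
      ((λ_ (𝟙_ C)).inv ≫ ((x ≫ (ρ_ P).inv ≫ (P ◁ α)) ⊗ₘ y)) ≫
        (α_ P Z Q).hom ≫ (P ◁ (β_ Z Q).hom) ≫ (α_ P Q Z).inv := by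
  have h1 : ((x ≫ (ρ_ P).inv ≫ (P ◁ α)) ⊗ₘ y) =
      (x ⊗ₘ y) ≫ ((ρ_ P).inv ▷ Q) ≫ ((P ◁ α) ▷ Q) := by
    rw [← comp_whiskerRight, ← tensorHom_id, tensorHom_comp_tensorHom, Category.comp_id]
  rw [h1]
  simp only [Category.assoc]
  congr 2
  have h2 : ((P ◁ α) ▷ Q) ≫ (α_ P Z Q).hom = (α_ P (𝟙_ C) Q).hom ≫ (P ◁ (α ▷ Q)) := by
    rw [associator_naturality_middle]
  have h3 : (P ◁ (α ▷ Q)) ≫ (P ◁ (β_ Z Q).hom) = (P ◁ (β_ (𝟙_ C) Q).hom) ≫ (P ◁ (Q ◁ α)) := by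
    rw [← MonoidalCategory.whiskerLeft_comp, ← MonoidalCategory.whiskerLeft_comp,
      BraidedCategory.braiding_naturality_left]
  rw [reassoc_of% h2, reassoc_of% h3, braiding_tensorUnit_left]
  monoidal

lemma AA_right {Z : C} (α β : 𝟙_ C ⟶ Z) (i j : ℕ) :
    AA α β i j ≫ (ρ_ (tp Z i ⊗ tp Z j)).inv ≫ ((tp Z i ⊗ tp Z j) ◁ β) =
      AA α β i (j + 1) ≫ (α_ (tp Z i) (tp Z j) Z).inv := gen_right _ _ _

lemma AA_left {Z : C} (α β : 𝟙_ C ⟶ Z) (i j : ℕ) :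
    AA α β i j ≫ (ρ_ (tp Z i ⊗ tp Z j)).inv ≫ ((tp Z i ⊗ tp Z j) ◁ α) =
      AA α β (i + 1) j ≫ (α_ (tp Z i) Z (tp Z j)).hom ≫ (tp Z i ◁ (β_ Z (tp Z j)).hom) ≫
        (α_ (tp Z i) (tp Z j) Z).inv := gen_left _ _ _

/-- the mixed terms -/
def Mix {Z : C} (α β : 𝟙_ C ⟶ Z) (k : ℕ) : Set (𝟙_ C ⟶ tp Z k) :=
  {g | ∃ (i j : ℕ) (_ : i + j = k) (σ : tp Z i ⊗ tp Z j ⟶ tp Z k), g = AA α β i j ≫ σ}

lemma whisker_move {W V Z : C} (σ : W ⟶ V) (γ : 𝟙_ C ⟶ Z) :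
    σ ≫ (ρ_ V).inv ≫ (V ◁ γ) = (ρ_ W).inv ≫ (W ◁ γ) ≫ (σ ▷ Z) := by
  rw [rightUnitor_inv_naturality_assoc, whisker_exchange]

lemma step {Z : C} (α β : 𝟙_ C ⟶ Z) (k : ℕ) (g : 𝟙_ C ⟶ tp Z k)
    (hg : g ∈ AddSubgroup.closure (Mix α β k)) :
    g ≫ (ρ_ (tp Z k)).inv ≫ (tp Z k ◁ (α + β)) ∈ AddSubgroup.closure (Mix α β (k + 1)) := by
  induction hg using AddSubgroup.closure_induction with
  | mem g hg =>
    obtain ⟨i, j, hij, σ, rfl⟩ := hg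
    rw [MonoidalPreadditive.whiskerLeft_add, Preadditive.comp_add, Preadditive.comp_add,
      Category.assoc, Category.assoc, whisker_move, whisker_move]
    refine AddSubgroup.add_mem _ ?_ ?_
    · have h1 := AA_left α β i j
      apply AddSubgroup.subset_closure
      refine ⟨i + 1, j, by omega, (α_ (tp Z i) Z (tp Z j)).hom ≫ (tp Z i ◁ (β_ Z (tp Z j)).hom) ≫
        (α_ (tp Z i) (tp Z j) Z).inv ≫ (σ ▷ Z), ?_⟩
      have h2 := congrArg (fun m => m ≫ (σ ▷ Z)) h1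
      simpa only [Category.assoc] using h2
    · have h1 := AA_right α β i j
      apply AddSubgroup.subset_closure
      refine ⟨i, j + 1, by omega, (α_ (tp Z i) (tp Z j) Z).inv ≫ (σ ▷ Z), ?_⟩
      have h2 := congrArg (fun m => m ≫ (σ ▷ Z)) h1
      simpa only [Category.assoc] using h2
  | zero =>
    rw [zero_comp]
    exact AddSubgroup.zero_mem _
  | add x y _ _ hx hy =>
    rw [Preadditive.add_comp]
    exact AddSubgroup.add_mem _ hx hy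
  | neg x _ hx =>
    rw [Preadditive.neg_comp]
    exact AddSubgroup.neg_mem _ hx

lemma mem_mix {Z : C} (α β : 𝟙_ C ⟶ Z) (k : ℕ) :
    tpow (α + β) k ∈ AddSubgroup.closure (Mix α β k) := by
  induction k with
  | zero =>
    apply AddSubgroup.subset_closure
    refine ⟨0, 0, rfl, (λ_ (𝟙_ C)).hom, ?_⟩
    simp [tpow, AA]
  | succ k ih => exact step α β k _ ih

end V1aux322

open V1aux322

/-- V1a -/
theorem SmashNil.comp {Y Z : C} {α : 𝟙_ C ⟶ Y} (h : SmashNil α) (f : Y ⟶ Z) :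
    SmashNil (α ≫ f) := by
  obtain ⟨k, hk⟩ := h
  obtain ⟨g, hg⟩ := tpow_comp α f k
  exact ⟨k, by rw [hg, hk, zero_comp]⟩

/-- V1b -/
theorem SmashNil.add {Z : C} {α β : 𝟙_ C ⟶ Z} (hα : SmashNil α) (hβ : SmashNil β) :
    SmashNil (α + β) := by
  obtain ⟨a, ha⟩ := hα
  obtain ⟨b, hb⟩ := hβ
  refine ⟨a + b, ?_⟩
  have h1 := mem_mix α β (a + b)
  have h2 : AddSubgroup.closure (Mix α β (a + b)) ≤ ⊥ := by
    rw [AddSubgroup.closure_le]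
    rintro g ⟨i, j, hij, σ, rfl⟩
    rw [AA_zero α β ha hb hij.ge, zero_comp]
    exact AddSubgroup.zero_mem _
  exact AddSubgroup.mem_bot.1 (h2 h1)

/-- V1c -/
theorem SmashNil.smul {Λ : Type t} [Field Λ] [Linear Λ C] [MonoidalLinear Λ C] {Z : C}
    {α : 𝟙_ C ⟶ Z} (hα : SmashNil α) (c : Λ) : SmashNil (c • α) := by
  obtain ⟨k, hk⟩ := hα
  have h1 : ∀ k, tpow (c • α) k = c ^ k • tpow α k := by
    intro k
    induction k with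
    | zero => simp [tpow]
    | succ k ih =>
      rw [tpow_succ, tpow_succ, ih, MonoidalLinear.whiskerLeft_smul, Linear.comp_smul,
        Linear.comp_smul, Linear.smul_comp, smul_smul, pow_succ']
  exact ⟨k, by rw [h1, hk, smul_zero]⟩

/-- V1d -/
theorem smashNil_zero (Z : C) : SmashNil (0 : 𝟙_ C ⟶ Z) := by
  refine ⟨1, ?_⟩
  rw [tpow_succ, MonoidalPreadditive.whiskerLeft_zero, comp_zero, comp_zero]

/-- The smash nilpotent morphisms. -/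
def smashSub (Λ : Type t) [Field Λ] [Linear Λ C] [MonoidalLinear Λ C] (Z : C) :
    Submodule Λ (𝟙_ C ⟶ Z) where
  carrier := {α | SmashNil α}
  zero_mem' := smashNil_zero Z
  add_mem' := fun ha hb => SmashNil.add ha hb
  smul_mem' := fun c _ ha => SmashNil.smul ha c

end Pool.Agent.N64.AF
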